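import Pool.Agent.W163.P3.Real

set_option autoImplicit false

namespace Pool.Agent.W320.P3
open Pool.Agent.W163.P3

theorem t_RC0 : S_RC0 := by
  intro p e u b f F s th y hp hp1 he he' hu hb hf hF hs hth hy hy0 hlin H
  have hth0 : 0 ≤ th := by linarith
  have hL : 10 * th + 4910 * b + 4800 * f + 24480 * F + 14400 * s ≤ 7 := by
    rw [hth]; linarith
  have hth7 : th ≤ 7 / 10 := by linarith
  have hb1 : b ≤ 1 := by linarith
  have hy1 : y ≤ 1 := by linarith
  have hyth : 0 ≤ y * th := mul_nonneg hy0 hth0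
  -- the main inequality
  have hR : 3 * p * (y * (1 - y ^ 2) - 2 * b) ≤
      12 * y * F + 2 * y * th ^ 2 + 3 * e * y + 6 * b * e := by
    nlinarith
  have hR0 : 0 ≤ 12 * y * F + 2 * y * th ^ 2 + 3 * e * y + 6 * b * e := by positivity
  have h1 : 6 / 5 * (y * (1 - y ^ 2) - 2 * b) ≤
      12 * y * F + 2 * y * th ^ 2 + 3 * e * y + 6 * b * e := by
    rcases le_or_gt (y * (1 - y ^ 2) - 2 * b) 0 with h | h
    · linarith
    · have : 6 / 5 * (y * (1 - y ^ 2) - 2 * b) ≤ 3 * p * (y * (1 - y ^ 2) - 2 * b) :=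
        mul_le_mul_of_nonneg_right (by linarith) h.le
      linarith
  have h2 : y * (1 - y ^ 2) = y * th * (2 - th) := by rw [hy]; ring
  have h3 : 3 * e * y + 6 * b * e ≤ 9 * e := by
    have a1 : e * y ≤ e * 1 := mul_le_mul_of_nonneg_left hy1 he
    have a2 : e * b ≤ e * 1 := mul_le_mul_of_nonneg_left hb1 he
    linarith
  have h4 : 12 * y * F ≤ 12 * F := by
    have : F * y ≤ F * 1 := mul_le_mul_of_nonneg_left hy1 hF
    linarith
  have h5 : y * th * (12 / 5 - 16 / 5 * th) ≤ 12 * F + 12 / 5 * b + 9 * e := by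
    rw [h2] at h1
    nlinarith
  have h6 : 12 * F + 12 / 5 * b ≤ 491 / 1000000 * (7 - 10 * th) := by linarith
  have hth2 : th < 2 / 1000 := by
    by_contra hcon
    push Not at hcon
    rcases le_or_gt th (1 / 10) with h | h
    · have a1 : 9 / 10 ≤ y := by linarith
      have a2 : 9 / 10 * (2 / 1000) ≤ y * th := mul_le_mul a1 hcon (by norm_num) hy0
      have a3 : 9 / 10 * (2 / 1000) * (208 / 100) ≤ y * th * (12 / 5 - 16 / 5 * th) :=
        mul_le_mul a2 (by linarith) (by norm_num) hyth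
      linarith
    · have a1 : 3 / 10 ≤ y := by linarith
      have a2 : 3 / 10 * (1 / 10) ≤ y * th := mul_le_mul a1 h.le (by norm_num) hy0
      have a3 : 3 / 10 * (1 / 10) * (16 / 100) ≤ y * th * (12 / 5 - 16 / 5 * th) :=
        mul_le_mul a2 (by linarith) (by norm_num) hyth
      linarith
  have h7 : 2388 / 1000 * th ≤ y * th * (12 / 5 - 16 / 5 * th) := by
    have a1 : 998 / 1000 ≤ y := by linarith
    have a2 : 998 / 1000 * (23936 / 10000) ≤ y * (12 / 5 - 16 / 5 * th) :=
      mul_le_mul a1 (by linarith) (by norm_num) hy0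
    have a3 : th * (2388 / 1000) ≤ th * (y * (12 / 5 - 16 / 5 * th)) :=
      mul_le_mul_of_nonneg_left (by linarith) hth0
    linarith
  linarith

end Pool.Agent.W320.P3
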